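import Mathlib

namespace Pool.Agent.Results.MP_2e66a2_lc.Exists

open MvPowerSeries Finsupp

/-- Series with coefficients in `ℕ` on the free commutative monoid `σ →₀ ℕ`. -/
abbrev Ser (σ : Type) := MvPowerSeries σ ℕ

/-- The star `S^* = ∑ k, S^k`, coefficient by coefficient (for zero constant term only finitely
many terms of each coefficient sum are non-zero, see `supp_pow`). -/
noncomputable def kstar {σ : Type} (S : Ser σ) : Ser σ := fun v => ∑ᶠ k : ℕ, coeff v (S ^ k)

/-- The rational series: the smallest family containing the series of finite support and closed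
under sum, Cauchy product, and star of series with zero constant term. -/
inductive IsRat {σ : Type} : Ser σ → Prop
  | fin (S : Ser σ) : {v | coeff v S ≠ 0}.Finite → IsRat S
  | add (S T : Ser σ) : IsRat S → IsRat T → IsRat (S + T)
  | mul (S T : Ser σ) : IsRat S → IsRat T → IsRat (S * T)
  | star (S : Ser σ) : IsRat S → constantCoeff S = 0 → IsRat (kstar S)

/-- The Parikh vector of a word: the letter `x` is sent to its number of occurrences. -/
noncomputable def parikh {n : ℕ} (w : List (Fin n)) : Fin n →₀ ℕ :=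
  Finsupp.equivFunOnFinite.symm fun x => w.count x

/-- The characteristic series of a language in commutative variables. -/
noncomputable def chi {n : ℕ} (L : Set (List (Fin n))) : Ser (Fin n) :=
  fun v => {w | w ∈ L ∧ parikh w = v}.ncard

section general
variable {σ : Type}

theorem coeff_pow_zero {S : Ser σ} (hS : constantCoeff S = 0) (v : σ →₀ ℕ) {k : ℕ}
    (hk : degree v < k) : coeff v (S ^ k) = 0 := by
  apply coeff_of_lt_order
  exact lt_of_lt_of_le (by exact_mod_cast hk) (le_order_pow_of_constantCoeff_eq_zero k hS)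

theorem supp_pow {S : Ser σ} (hS : constantCoeff S = 0) (v : σ →₀ ℕ) {N : ℕ}
    (hN : degree v < N) :
    (Function.support fun k : ℕ => coeff v (S ^ k)) ⊆ (Finset.range N : Set ℕ) := by
  intro k hk
  simp only [Finset.coe_range, Set.mem_Iio]
  by_contra h
  exact hk (coeff_pow_zero hS v (by omega))

theorem coeff_star {S : Ser σ} (hS : constantCoeff S = 0) (v : σ →₀ ℕ) {N : ℕ}
    (hN : degree v < N) : coeff v (kstar S) = coeff v (∑ k ∈ Finset.range N, S ^ k) := by
  rw [map_sum]
  exact finsum_eq_sum_of_support_subset _ (supp_pow hS v hN)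

theorem coeff_mul_congr {S T T' : Ser σ} (hS : constantCoeff S = 0) (v : σ →₀ ℕ)
    (h : ∀ u, degree u < degree v → coeff u T = coeff u T') :
    coeff v (S * T) = coeff v (S * T') := by
  classical
  rw [coeff_mul, coeff_mul]
  refine Finset.sum_congr rfl fun p hp => ?_
  have hp' : p.1 + p.2 = v := by simpa using hp
  by_cases h0 : p.1 = 0
  · rw [h0]
    simp [hS]
  · rw [h p.2]
    rw [← hp', map_add]
    have : degree p.1 ≠ 0 := fun h => h0 ((degree_eq_zero_iff _).1 h)
    omega

theorem star_eq {S : Ser σ} (hS : constantCoeff S = 0) : kstar S = 1 + S * kstar S := by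
  ext v
  rw [coeff_star hS v (N := degree v + 1) (by omega), Finset.sum_range_succ', map_add, map_add,
    pow_zero, add_comm]
  congr 1
  simp only [pow_succ']
  rw [← Finset.mul_sum]
  exact coeff_mul_congr hS v fun u hu => (coeff_star hS u hu).symm

theorem uniq {S B X Y : Ser σ} (hS : constantCoeff S = 0) (hX : X = B + S * X)
    (hY : Y = B + S * Y) : X = Y := by
  ext v
  induction hn : degree v using Nat.strong_induction_on generalizing v with
  | _ n ih =>
    rw [hX, hY, map_add, map_add]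
    congr 1
    exact coeff_mul_congr hS v fun u hu => ih _ (hn ▸ hu) u rfl

theorem arden {S B X : Ser σ} (hS : constantCoeff S = 0) (hX : X = B + S * X) :
    X = kstar S * B := by
  refine uniq hS hX ?_
  conv_lhs => rw [star_eq hS]
  ring

theorem rat_monomial (m : σ →₀ ℕ) (a : ℕ) : IsRat (monomial m a : Ser σ) := by
  classical
  refine IsRat.fin _ ((Set.finite_singleton m).subset fun v hv => ?_)
  by_contra h
  exact hv (by rw [coeff_monomial, if_neg (show ¬ v = m from h)])

theorem rat_X (x : σ) : IsRat (X x : Ser σ) := rat_monomial _ _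

theorem rat_one : IsRat (1 : Ser σ) := rat_monomial 0 1

theorem rat_zero : IsRat (0 : Ser σ) := IsRat.fin _ (by simp)

theorem rat_starX (x : σ) : IsRat (kstar (X x) : Ser σ) := IsRat.star _ (rat_X x) (by simp)

open Pointwise in
theorem supp_mul (S T : Ser σ) :
    {v | coeff v (S * T) ≠ 0} = {v | coeff v S ≠ 0} + {v | coeff v T ≠ 0} := by
  classical
  ext v
  simp only [Set.mem_setOf_eq, Set.mem_add, coeff_mul]
  constructor
  · intro h
    obtain ⟨p, hp, h0⟩ := Finset.exists_ne_zero_of_sum_ne_zero h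
    exact ⟨p.1, left_ne_zero_of_mul h0, p.2, right_ne_zero_of_mul h0, by simpa using hp⟩
  · rintro ⟨u, hu, w, hw, rfl⟩ h
    rw [Finset.sum_eq_zero_iff] at h
    exact mul_ne_zero hu hw (h (u, w) (by simp))

theorem supp_star {S : Ser σ} (hS : constantCoeff S = 0) :
    {v | coeff v (kstar S) ≠ 0} = (AddSubmonoid.closure {v | coeff v S ≠ 0} : Set (σ →₀ ℕ)) := by
  classical
  have key : ∀ v, coeff v (kstar S) ≠ 0 ↔ ∃ k, coeff v (S ^ k) ≠ 0 := by
    intro v
    rw [coeff_star hS v (N := degree v + 1) (by omega), map_sum]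
    constructor
    · intro h
      obtain ⟨k, -, hk⟩ := Finset.exists_ne_zero_of_sum_ne_zero h
      exact ⟨k, hk⟩
    · rintro ⟨k, hk⟩ h
      rw [Finset.sum_eq_zero_iff] at h
      refine hk (h k ?_)
      exact_mod_cast supp_pow hS v (N := degree v + 1) (by omega) hk
  ext v
  simp only [Set.mem_setOf_eq, SetLike.mem_coe, key]
  constructor
  · rintro ⟨k, hk⟩
    induction k generalizing v with
    | zero =>
      have : v = 0 := by
        by_contra h
        exact hk (by rw [pow_zero, coeff_one, if_neg h])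
      rw [this]
      exact zero_mem _
    | succ k ih =>
      have h : v ∈ {v | coeff v (S ^ k * S) ≠ 0} := by simpa [pow_succ] using hk
      rw [supp_mul] at h
      obtain ⟨u, hu, w, hw, rfl⟩ := h
      exact add_mem (ih u hu) (AddSubmonoid.subset_closure hw)
  · intro hv
    induction hv using AddSubmonoid.closure_induction with
    | mem x h => exact ⟨1, by simpa using h⟩
    | zero => exact ⟨0, by simp⟩
    | add x y _ _ hx hy =>
      obtain ⟨k, hk⟩ := hx
      obtain ⟨l, hl⟩ := hy
      refine ⟨k + l, ?_⟩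
      have h : x + y ∈ {v | coeff v (S ^ k * S ^ l) ≠ 0} := by
        rw [supp_mul]
        exact ⟨x, hk, y, hl, rfl⟩
      simpa [pow_add] using h

theorem semilinear {S : Ser σ} (h : IsRat S) : IsSemilinearSet {v | coeff v S ≠ 0} := by
  induction h with
  | fin S h => exact .of_finite h
  | add S T _ _ hS hT =>
    have : {v | coeff v (S + T) ≠ 0} = {v | coeff v S ≠ 0} ∪ {v | coeff v T ≠ 0} := by
      ext v
      simp only [map_add, Set.mem_setOf_eq, Set.mem_union]
      omega
    rw [this]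
    exact hS.union hT
  | mul S T _ _ hS hT =>
    rw [supp_mul]
    exact hS.add hT
  | star S _ h0 hS =>
    rw [supp_star h0]
    exact hS.closure

end general

section words
variable {n : ℕ}

theorem parikh_apply (w : List (Fin n)) (x : Fin n) : parikh w x = w.count x := rfl

theorem parikh_nil : parikh ([] : List (Fin n)) = 0 := by
  ext x
  simp [parikh_apply]

theorem parikh_cons (y : Fin n) (w : List (Fin n)) :
    parikh (y :: w) = single y 1 + parikh w := by
  ext x
  simp only [parikh_apply, List.count_cons, Finsupp.add_apply, single_apply, beq_iff_eq]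
  omega

theorem degree_parikh (w : List (Fin n)) : degree (parikh w) = w.length := by
  induction w with
  | nil => simp [parikh_nil]
  | cons y w ih => rw [parikh_cons, map_add, ih, degree_single, List.length_cons, add_comm]

theorem fiber_finite (v : Fin n →₀ ℕ) : {w : List (Fin n) | parikh w = v}.Finite :=
  (List.finite_length_eq (Fin n) (degree v)).subset fun w hw => by
    have hw' : parikh w = v := hw
    simp only [Set.mem_setOf_eq]
    rw [← hw', degree_parikh]

/-- The series of all words. -/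
noncomputable def U (n : ℕ) : Ser (Fin n) := fun v => {w : List (Fin n) | parikh w = v}.ncard

theorem coeff_U (v : Fin n →₀ ℕ) : coeff v (U n) = {w : List (Fin n) | parikh w = v}.ncard := rfl

theorem coeff_X_mul_U (x : Fin n) (v : Fin n →₀ ℕ) :
    coeff v (X x * U n) = {w : List (Fin n) | parikh w = v ∧ w.head? = some x}.ncard := by
  rw [X_def, coeff_monomial_mul]
  split_ifs with h
  · rw [one_mul, coeff_U, ← Set.ncard_image_of_injective _ (List.cons_injective (a := x))]
    congr 1
    ext w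
    simp only [Set.mem_image, Set.mem_setOf_eq]
    constructor
    · rintro ⟨u, hu, rfl⟩
      exact ⟨by rw [parikh_cons, hu, add_tsub_cancel_of_le h], rfl⟩
    · rintro ⟨hw, hx⟩
      cases w with
      | nil => simp at hx
      | cons y u =>
        obtain rfl : y = x := by simpa using hx
        exact ⟨u, by rw [← hw, parikh_cons, add_tsub_cancel_left], rfl⟩
  · symm
    rw [Set.ncard_eq_zero ((fiber_finite v).subset fun w hw => hw.1)]
    rw [Set.eq_empty_iff_forall_notMem]
    rintro w ⟨hw, hx⟩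
    cases w with
    | nil => simp at hx
    | cons y u =>
      obtain rfl : y = x := by simpa using hx
      exact h (by rw [← hw, parikh_cons]; exact le_self_add)

theorem coeff_one_eq (v : Fin n →₀ ℕ) :
    coeff v (1 : Ser (Fin n)) = {w : List (Fin n) | parikh w = v ∧ w.head? = none}.ncard := by
  classical
  rw [coeff_one]
  split_ifs with h
  · symm
    rw [Set.ncard_eq_one]
    refine ⟨[], ?_⟩
    ext w
    simp only [Set.mem_setOf_eq, List.head?_eq_none_iff, Set.mem_singleton_iff]
    exact ⟨fun h => h.2, fun hw => ⟨by rw [hw, h, parikh_nil], hw⟩⟩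
  · symm
    rw [Set.ncard_eq_zero ((fiber_finite v).subset fun w hw => hw.1)]
    rw [Set.eq_empty_iff_forall_notMem]
    rintro w ⟨hw, hx⟩
    rw [List.head?_eq_none_iff] at hx
    exact h (by rw [← hw, hx, parikh_nil])

theorem U_eq : U 3 = 1 + X 0 * U 3 + X 1 * U 3 + X 2 * U 3 := by
  ext v
  have hf : ∀ o : Option (Fin 3), {w : List (Fin 3) | parikh w = v ∧ w.head? = o}.Finite :=
    fun o => (fiber_finite v).subset fun w hw => hw.1
  rw [map_add, map_add, map_add, coeff_one_eq, coeff_X_mul_U, coeff_X_mul_U, coeff_X_mul_U,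
    ← Set.ncard_union_eq _ (hf _) (hf _), ← Set.ncard_union_eq _ ((hf _).union (hf _)) (hf _),
    ← Set.ncard_union_eq _ (((hf _).union (hf _)).union (hf _)) (hf _), coeff_U]
  · congr 1
    ext w
    simp only [Set.mem_setOf_eq, Set.mem_union]
    constructor
    · intro h
      rcases hw : w.head? with _ | x
      · simp [h]
      · fin_cases x <;> simp [h]
    · rintro (((h | h) | h) | h) <;> exact h.1
  all_goals
    rw [Set.disjoint_left]
    intro w h1 h2
    simp only [Set.mem_setOf_eq, Set.mem_union] at h1 h2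
    rw [h2.2] at h1
    simp at h1

theorem exists_lang {r t : Ser (Fin n)} (h : U n = t + r) :
    ∃ L : Set (List (Fin n)), chi L = r ∧ chi Lᶜ = t := by
  have h1 : ∀ v, ∃ A ⊆ {w : List (Fin n) | parikh w = v}, A.ncard = coeff v r := fun v =>
    Set.exists_subset_card_eq (by rw [← coeff_U, h, map_add]; omega)
  choose A hA hc using h1
  refine ⟨{w | w ∈ A (parikh w)}, ?_, ?_⟩
  · ext v
    rw [← hc v]
    change Set.ncard _ = _
    congr 1
    ext w
    simp only [Set.mem_setOf_eq]
    exact ⟨fun h => h.2 ▸ h.1, fun h => ⟨(hA v h).symm ▸ h, hA v h⟩⟩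
  · ext v
    have e : {w | w ∈ {w | w ∈ A (parikh w)}ᶜ ∧ parikh w = v} =
        {w : List (Fin n) | parikh w = v} \ A v := by
      ext w
      simp only [Set.mem_setOf_eq, Set.mem_compl_iff, Set.mem_diff]
      exact ⟨fun h => ⟨h.2, h.2 ▸ h.1⟩, fun h => ⟨h.1.symm ▸ h.2, h.1⟩⟩
    change Set.ncard _ = _
    rw [e, Set.ncard_diff (hA v) ((fiber_finite v).subset (hA v)), hc, ← coeff_U, h, map_add]
    omega

end words

/-- `s` has a rational complement inside the series of all words. -/
def Sub (s : Ser (Fin 3)) : Prop := ∃ r, IsRat r ∧ U 3 = s + r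

theorem sub_zero : Sub 0 := by
  refine ⟨U 3, ?_, by simp⟩
  have h : U 3 = kstar (X 0 + X 1 + X 2) * 1 := by
    refine arden (by simp) ?_
    conv_lhs => rw [U_eq]
    ring
  rw [h]
  exact .mul _ _ (.star _ (.add _ _ (.add _ _ (rat_X _) (rat_X _)) (rat_X _)) (by simp)) rat_one

theorem sub_step {s₁ s₂ : Ser (Fin 3)} (h₁ : Sub s₁) (h₂ : Sub s₂) :
    Sub (X 1 * s₁ + X 2 * s₂) := by
  obtain ⟨r₀, hr₀, e₀⟩ := sub_zero
  obtain ⟨r₁, hr₁, e₁⟩ := h₁
  obtain ⟨r₂, hr₂, e₂⟩ := h₂
  refine ⟨1 + X 0 * r₀ + X 1 * r₁ + X 2 * r₂, .add _ _ (.add _ _ (.add _ _ rat_one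
    (.mul _ _ (rat_X _) hr₀)) (.mul _ _ (rat_X _) hr₁)) (.mul _ _ (rat_X _) hr₂), ?_⟩
  calc U 3 = 1 + X 0 * U 3 + X 1 * U 3 + X 2 * U 3 := U_eq
    _ = 1 + X 0 * (0 + r₀) + X 1 * (s₁ + r₁) + X 2 * (s₂ + r₂) := by rw [← e₀, ← e₁, ← e₂]
    _ = _ := by ring

theorem sub_c {s : Ser (Fin 3)} (h : Sub s) : Sub (X 2 * s) := by
  simpa using sub_step sub_zero h

theorem sub_loopA {s : Ser (Fin 3)} (h : Sub s) : Sub (kstar (X 0) * (X 2 * s)) := by
  obtain ⟨r₀, hr₀, e₀⟩ := sub_zero
  obtain ⟨r, hr, e⟩ := h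
  refine ⟨kstar (X 0) * (1 + X 1 * r₀ + X 2 * r), .mul _ _ (rat_starX _) (.add _ _ (.add _ _ rat_one
    (.mul _ _ (rat_X _) hr₀)) (.mul _ _ (rat_X _) hr)), ?_⟩
  have h : U 3 = kstar (X 0) * (1 + X 1 * U 3 + X 2 * U 3) := by
    refine arden (by simp) ?_
    conv_lhs => rw [U_eq]
    ring
  calc U 3 = kstar (X 0) * (1 + X 1 * U 3 + X 2 * U 3) := h
    _ = kstar (X 0) * (1 + X 1 * (0 + r₀) + X 2 * (s + r)) := by rw [← e₀, ← e]
    _ = _ := by ring

theorem sub_loopB {s : Ser (Fin 3)} (h : Sub s) : Sub (kstar (X 1) * (X 2 * s)) := by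
  obtain ⟨r₀, hr₀, e₀⟩ := sub_zero
  obtain ⟨r, hr, e⟩ := h
  refine ⟨kstar (X 1) * (1 + X 0 * r₀ + X 2 * r), .mul _ _ (rat_starX _) (.add _ _ (.add _ _ rat_one
    (.mul _ _ (rat_X _) hr₀)) (.mul _ _ (rat_X _) hr)), ?_⟩
  have h : U 3 = kstar (X 1) * (1 + X 0 * U 3 + X 2 * U 3) := by
    refine arden (by simp) ?_
    conv_lhs => rw [U_eq]
    ring
  calc U 3 = kstar (X 1) * (1 + X 0 * U 3 + X 2 * U 3) := h
    _ = kstar (X 1) * (1 + X 0 * (0 + r₀) + X 2 * (s + r)) := by rw [← e₀, ← e]
    _ = _ := by ring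

theorem sub_two (x y z : Fin 3)
    (hU : U 3 = 1 + X x * U 3 + X y * U 3 + X z * U 3) : Sub (kstar (X x) * kstar (X y)) := by
  obtain ⟨r₀, hr₀, e₀⟩ := sub_zero
  have h1 : U 3 = kstar (X y) * (1 + X x * U 3 + X z * U 3) := by
    refine arden (by simp) ?_
    conv_lhs => rw [hU]
    ring
  have h2 : U 3 = kstar (X x) * (1 + X y * U 3 + X z * U 3) := by
    refine arden (by simp) ?_
    conv_lhs => rw [hU]
    ring
  refine ⟨kstar (X x) * (X y * (kstar (X y) * (X x * r₀ + X z * r₀)) + X z * r₀), .mul _ _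
    (rat_starX _) (.add _ _ (.mul _ _ (rat_X _) (.mul _ _ (rat_starX _) (.add _ _
    (.mul _ _ (rat_X _) hr₀) (.mul _ _ (rat_X _) hr₀)))) (.mul _ _ (rat_X _) hr₀)), ?_⟩
  rw [zero_add] at e₀
  rw [← e₀]
  calc U 3 = kstar (X x) * (1 + X y * U 3 + X z * U 3) := h2
    _ = kstar (X x) * (1 + X y * (kstar (X y) * (1 + X x * U 3 + X z * U 3)) + X z * U 3) := by
      rw [← h1]
    _ = kstar (X x) * ((1 + X y * kstar (X y)) + X y * (kstar (X y) * (X x * U 3 + X z * U 3))
      + X z * U 3) := by ring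
    _ = _ := by
      rw [← star_eq (S := X y) (by simp)]
      ring

theorem sub_main : Sub (kstar (X 0) ^ 3 * kstar (X 1) * X 2 ^ 6 +
    3 * (X 1 * (kstar (X 1) ^ 5 * kstar (X 0) * X 2 ^ 6))) := by
  have hA : Sub (kstar (X 0) * (X 2 * (kstar (X 0) * (X 2 * (kstar (X 0) * kstar (X 1)))))) :=
    sub_loopA (sub_loopA (sub_two 0 1 2 U_eq))
  have hB := sub_loopB (sub_loopB (sub_loopB (sub_loopB (sub_two 1 0 2 (by
    conv_lhs => rw [U_eq]
    ring)))))
  have := sub_step (sub_c (sub_c hB)) (sub_step (sub_c hB) (sub_step hB (sub_c hA)))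
  convert this using 1
  ring

/-- The series with coefficient `f i j` at `a^i b^j c^6` and zero elsewhere. -/
noncomputable def Phi (f : ℕ → ℕ → ℕ) : Ser (Fin 3) :=
  fun v => if v 2 = 6 then f (v 0) (v 1) else 0

theorem coeff_Phi (f : ℕ → ℕ → ℕ) (v : Fin 3 →₀ ℕ) :
    coeff v (Phi f) = if v 2 = 6 then f (v 0) (v 1) else 0 := rfl

theorem mulA (f : ℕ → ℕ → ℕ) :
    X 0 * Phi f = Phi fun i j => if i = 0 then 0 else f (i - 1) j := by
  ext v
  rw [X_def, coeff_monomial_mul, coeff_Phi, coeff_Phi]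
  simp only [single_le_iff, Finsupp.coe_tsub, Pi.sub_apply, single_apply, one_mul]
  by_cases h : v 0 = 0 <;> by_cases h2 : v 2 = 6 <;> simp [h, h2]

theorem mulB (f : ℕ → ℕ → ℕ) :
    X 1 * Phi f = Phi fun i j => if j = 0 then 0 else f i (j - 1) := by
  ext v
  rw [X_def, coeff_monomial_mul, coeff_Phi, coeff_Phi]
  simp only [single_le_iff, Finsupp.coe_tsub, Pi.sub_apply, single_apply, one_mul]
  by_cases h : v 1 = 0 <;> by_cases h2 : v 2 = 6 <;> simp [h, h2]

theorem Phi_add (f g : ℕ → ℕ → ℕ) : Phi f + Phi g = Phi fun i j => f i j + g i j := by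
  ext v
  rw [map_add, coeff_Phi, coeff_Phi, coeff_Phi]
  split_ifs <;> simp

theorem starA {f g : ℕ → ℕ → ℕ} (h0 : ∀ j, g 0 j = f 0 j)
    (h1 : ∀ i j, g (i + 1) j = f (i + 1) j + g i j) : kstar (X 0) * Phi f = Phi g := by
  symm
  refine arden (by simp) ?_
  rw [mulA, Phi_add]
  congr 1
  funext i j
  cases i with
  | zero => simp [h0]
  | succ i => simp [h1]

theorem starB {f g : ℕ → ℕ → ℕ} (h0 : ∀ i, g i 0 = f i 0)
    (h1 : ∀ i j, g i (j + 1) = f i (j + 1) + g i j) : kstar (X 1) * Phi f = Phi g := by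
  symm
  refine arden (by simp) ?_
  rw [mulB, Phi_add]
  congr 1
  funext i j
  cases j with
  | zero => simp [h0]
  | succ j => simp [h1]

theorem base : (X 2 ^ 6 : Ser (Fin 3)) = Phi fun i j => if i = 0 ∧ j = 0 then 1 else 0 := by
  ext v
  rw [coeff_X_pow, coeff_Phi]
  have : v = single 2 6 ↔ v 2 = 6 ∧ v 0 = 0 ∧ v 1 = 0 := by
    constructor
    · rintro rfl
      simp
    · rintro ⟨h2, h0, h1⟩
      ext x
      fin_cases x <;> simp [h0, h1, h2]
  by_cases h2 : v 2 = 6 <;> simp [this, h2]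

theorem gen (p q : ℕ) : kstar (X 0) ^ (p + 1) * kstar (X 1) ^ (q + 1) * X 2 ^ 6 =
    Phi fun i j => (i + p).choose p * (j + q).choose q := by
  induction p with
  | zero =>
    induction q with
    | zero =>
      have h1 : kstar (X 1) * X 2 ^ 6 = Phi fun i _ => if i = 0 then 1 else 0 := by
        rw [base]
        exact starB (by simp) (by simp)
      rw [zero_add, pow_one, pow_one, mul_assoc, h1]
      exact starA (by simp) (by simp)
    | succ q ih =>
      have : kstar (X 0) ^ (0 + 1) * kstar (X 1) ^ (q + 1 + 1) * X 2 ^ 6 =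
        kstar (X 1) * (kstar (X 0) ^ (0 + 1) * kstar (X 1) ^ (q + 1) * X 2 ^ 6 : Ser (Fin 3)) := by
        ring
      rw [this, ih]
      refine starB (by simp) fun i j => ?_
      rw [show j + 1 + (q + 1) = (j + 1 + q) + 1 by ring, Nat.choose_succ_succ',
        show j + (q + 1) = j + 1 + q by ring]
      ring
  | succ p ih =>
    have : kstar (X 0) ^ (p + 1 + 1) * kstar (X 1) ^ (q + 1) * X 2 ^ 6 =
      kstar (X 0) * (kstar (X 0) ^ (p + 1) * kstar (X 1) ^ (q + 1) * X 2 ^ 6 : Ser (Fin 3)) := by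
      ring
    rw [this, ih]
    refine starA (by simp) fun i j => ?_
    rw [show i + 1 + (p + 1) = (i + 1 + p) + 1 by ring, Nat.choose_succ_succ',
      show i + (p + 1) = i + 1 + p by ring]
    ring

/-- Triangular numbers. -/
def T (j : ℕ) : ℕ := (j + 2).choose 2

theorem two_T (j : ℕ) : 2 * T j = (j + 2) * (j + 1) := by
  induction j with
  | zero => simp [T]
  | succ j ih =>
    unfold T at *
    rw [show j + 1 + 2 = (j + 2) + 1 by ring, Nat.choose_succ_succ', Nat.choose_one_right]
    nlinarith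

theorem c3 (j : ℕ) : 6 * (j + 3).choose 3 = (j + 3) * (j + 2) * (j + 1) := by
  induction j with
  | zero => simp
  | succ j ih =>
    have := two_T (j + 1)
    unfold T at this
    rw [show j + 1 + 3 = (j + 3) + 1 by ring, Nat.choose_succ_succ']
    rw [show j + 1 + 2 = j + 3 by ring] at this
    nlinarith

theorem c4 (j : ℕ) : 24 * (j + 4).choose 4 = (j + 4) * (j + 3) * (j + 2) * (j + 1) := by
  induction j with
  | zero => simp
  | succ j ih =>
    have := c3 (j + 1)
    rw [show j + 1 + 4 = (j + 4) + 1 by ring, Nat.choose_succ_succ']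
    rw [show j + 1 + 3 = j + 4 by ring] at this
    nlinarith

/-- `Q j` is the number of pairs from a set of `T j` elements. -/
def Q (j : ℕ) : ℕ := if j = 0 then 0 else 3 * (j - 1 + 4).choose 4

theorem two_Q (j : ℕ) : 2 * (Q j : ℤ) = T j * (T j - 1) := by
  cases j with
  | zero => simp [Q, T]
  | succ j =>
    have h1 : (2 * T (j + 1) : ℤ) = (j + 3) * (j + 2) := by exact_mod_cast two_T (j + 1)
    have h2 : (24 * (j + 4).choose 4 : ℤ) = (j + 4) * (j + 3) * (j + 2) * (j + 1) := by
      exact_mod_cast c4 j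
    simp only [Q, Nat.succ_ne_zero, if_false, Nat.add_sub_cancel]
    push_cast
    nlinarith

theorem key (i j : ℕ) : 2 * ((T i : ℤ) + Q j - (i + 1) * T j) =
    (i + 1 - T j) * (i + 2 - T j) := by
  have h1 : (2 * T i : ℤ) = (i + 2) * (i + 1) := by exact_mod_cast two_T i
  have h2 := two_Q j
  nlinarith

theorem key_le (i j : ℕ) : (i + 1) * T j ≤ T i + Q j := by
  have h := key i j
  have : (0 : ℤ) ≤ (i + 1 - T j) * (i + 2 - T j) := by
    by_cases h : (T j : ℤ) ≤ i + 1
    · exact mul_nonneg (by omega) (by omega)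
    · exact mul_nonneg_of_nonpos_of_nonpos (by omega) (by omega)
  have : ((i + 1) * T j : ℤ) ≤ T i + Q j := by omega
  exact_mod_cast this

theorem key_eq (i j : ℕ) : T i + Q j - (i + 1) * T j = 0 ↔ i + 1 = T j ∨ i + 2 = T j := by
  have h := key i j
  have h' := key_le i j
  constructor
  · intro h0
    have h1 : T i + Q j = (i + 1) * T j := by omega
    have h2 : (T i : ℤ) + Q j = (i + 1) * T j := by exact_mod_cast h1
    rw [h2, sub_self, mul_zero] at h
    rcases mul_eq_zero.1 h.symm with h | h <;> omega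
  · intro h0
    have h1 : ((i : ℤ) + 1 - T j) * (i + 2 - T j) = 0 := by
      rcases h0 with h0 | h0 <;> rw [← h0] <;> push_cast <;> ring
    have h2 : (T i : ℤ) + Q j = (i + 1) * T j := by omega
    have h3 : T i + Q j = (i + 1) * T j := by exact_mod_cast h2
    omega

/-- The series of the complement. -/
noncomputable def tt : Ser (Fin 3) := Phi fun i j => T i + Q j - (i + 1) * T j

theorem split : (kstar (X 0) ^ 3 * kstar (X 1) * X 2 ^ 6 +
    3 * (X 1 * (kstar (X 1) ^ 5 * kstar (X 0) * X 2 ^ 6)) : Ser (Fin 3)) =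
    tt + kstar (X 0) ^ 2 * kstar (X 1) ^ 3 * X 2 ^ 6 := by
  have h1 := gen 2 0
  have h2 := gen 0 4
  have h3 := gen 1 2
  simp only [zero_add, pow_one] at h1 h2 h3
  rw [h1, mul_comm (kstar (X 1) ^ 5), h2, h3, mulB, show (3 : Ser (Fin 3)) = 1 + 1 + 1 by norm_num,
    add_mul, add_mul, one_mul, tt, Phi_add, Phi_add, Phi_add, Phi_add]
  congr 1
  funext i j
  have := key_le i j
  unfold T Q at *
  simp only [Nat.choose_zero_right, Nat.choose_one_right, mul_one, one_mul]
  split_ifs at * <;> omega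

theorem not_rat : ¬ IsRat tt := by
  intro h
  haveI : AddMonoid.FG (Fin 3 →₀ ℕ) := Module.Finite.iff_addMonoid_fg.1 inferInstance
  have h1 := ((isSemilinearSet_setOfPred_eq (0 : ℕ) 6 (Finsupp.applyAddHom (M := ℕ) (2 : Fin 3))
    (0 : (Fin 3 →₀ ℕ) →+ ℕ)).sdiff (semilinear h)).image (Finsupp.applyAddHom (M := ℕ) (0 : Fin 3))
  obtain ⟨k, p, hp, hk⟩ := Nat.isSemilinearSet_iff_ultimately_periodic.1 h1
  have hT := two_T (k + p + 1)
  have h2 := (hk (T (k + p + 1) - 1) (by
    have : k + 1 ≤ T (k + p + 1) := by nlinarith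
    omega)).1 ⟨single 0 (T (k + p + 1) - 1) + single 1 (k + p + 1) + single 2 6, ⟨by simp, by
      simp only [Set.mem_setOf_eq, tt, coeff_Phi, not_not]
      rw [if_pos (by simp), key_eq]
      left
      have : 1 ≤ T (k + p + 1) := by nlinarith
      simp
      omega⟩, by simp⟩
  obtain ⟨v, ⟨hv2, hv⟩, hv0⟩ := h2
  simp only [Set.mem_setOf_eq, tt, coeff_Phi, not_not] at hv
  rw [if_pos (by simpa using hv2), key_eq] at hv
  simp only [applyAddHom_apply] at hv0
  have h1T : 1 ≤ T (k + p + 1) := by nlinarith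
  have hj := two_T (v 1)
  rcases le_or_gt (v 1) (k + p + 1) with hle | hlt
  · have : (v 1 + 2) * (v 1 + 1) ≤ (k + p + 1 + 2) * (k + p + 1 + 1) := by gcongr
    omega
  · have : (k + p + 2 + 2) * (k + p + 2 + 1) ≤ (v 1 + 2) * (v 1 + 1) := by
      gcongr <;> omega
    have e : (k + p + 2 + 2) * (k + p + 2 + 1) =
      (k + p + 1 + 2) * (k + p + 1 + 1) + 2 * (k + p + 3) := by ring
    omega

/-- Q1, yes: a language over three letters whose commutative characteristic series is rational
while that of its complement is not. -/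
theorem result : ∃ (n : ℕ) (L : Set (List (Fin n))), IsRat (chi L) ∧ ¬ IsRat (chi Lᶜ) := by
  obtain ⟨r, hr, e⟩ := sub_main
  rw [split, add_assoc] at e
  obtain ⟨L, h1, h2⟩ := exists_lang e
  refine ⟨3, L, ?_, h2 ▸ not_rat⟩
  rw [h1]
  have hp : ∀ (S : Ser (Fin 3)) (m : ℕ), IsRat S → IsRat (S ^ m) := fun S m hS => by
    induction m with
    | zero => simpa using rat_one
    | succ m ih => rw [pow_succ]; exact .mul _ _ ih hS
  exact .add _ _ (.mul _ _ (.mul _ _ (hp _ _ (rat_starX _)) (hp _ _ (rat_starX _)))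
    (hp _ _ (rat_X _))) hr

end Pool.Agent.Results.MP_2e66a2_lc.Exists
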